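import Pool.Agent.H635Z.L

set_option autoImplicit false

open Polynomial Finset Pool.Agent.H635Z

namespace Pool.Agent.Q163.TZ

lemma eval_pos_of_coeff (p : ℝ[X]) (h : ∀ k, 0 ≤ p.coeff k) (k0 : ℕ) (hk : 0 < p.coeff k0) (b : ℝ)
    (hb : 0 < b) : 0 < p.eval b := by
  rw [eval_eq_sum_range]
  apply Finset.sum_pos'
  · intro i _
    exact mul_nonneg (h i) (pow_pos hb i).le
  · refine ⟨k0, ?_, mul_pos hk (pow_pos hb k0)⟩
    rw [mem_range]
    exact Nat.lt_succ_of_le (le_natDegree_of_ne_zero hk.ne')

/-- one sign change: no two positive roots -/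
lemma no_two_pos (f : ℝ[X]) (d : ℕ) (hd : f.natDegree ≤ d) (h0 : 0 < f.coeff d)
    (h : ∀ k < d, f.coeff k ≤ 0) (a b : ℝ) (ha : 0 < a) (hb : 0 < b) :
    ¬ ((X - C a) * (X - C b) ∣ f) := by
  rintro ⟨g, hg⟩
  set q : ℝ[X] := (X - C b) * g with hq
  have hf : f = (X - C a) * q := by rw [hg, hq]; ring
  have hf0 : f ≠ 0 := by rintro h1; rw [h1] at h0; simp at h0
  have hq0 : q ≠ 0 := by rintro h1; rw [h1, mul_zero] at hf; exact hf0 hf
  have hdeg : f.natDegree = 1 + q.natDegree := by
    rw [hf, natDegree_mul (X_sub_C_ne_zero a) hq0, natDegree_X_sub_C]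
  have hc0 : f.coeff 0 = - a * q.coeff 0 := by
    rw [hf, sub_mul, coeff_sub, coeff_C_mul, coeff_X_mul_zero]; ring
  have hc : ∀ j, f.coeff (j + 1) = q.coeff j - a * q.coeff (j + 1) := by
    intro j
    rw [hf, sub_mul, coeff_sub, coeff_C_mul, coeff_X_mul]
  have hd1 : 1 ≤ d := by
    by_contra hcon
    have : d = 0 := by omega
    omega
  obtain ⟨e, rfl⟩ : ∃ e, d = e + 1 := ⟨d - 1, by omega⟩
  have hhigh : ∀ j, e < j → q.coeff j = 0 := by
    intro j hj
    apply coeff_eq_zero_of_natDegree_lt
    omega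
  have hnon : ∀ j, j ≤ e → 0 ≤ q.coeff j := by
    intro j
    induction j with
    | zero =>
      intro _
      have h1 := h 0 (by omega)
      rw [hc0] at h1
      by_contra hcon
      push Not at hcon
      nlinarith
    | succ j ih =>
      intro hj
      have h1 := h (j + 1) (by omega)
      rw [hc j] at h1
      have h2 := ih (by omega)
      by_contra hcon
      push Not at hcon
      nlinarith
  have hall : ∀ j, 0 ≤ q.coeff j := by
    intro j
    rcases le_or_gt j e with h1 | h1
    · exact hnon j h1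
    · rw [hhigh j h1]
  have hlead : 0 < q.coeff e := by
    have h1 := hc e
    rw [hhigh (e + 1) (by omega)] at h1
    rw [h1] at h0
    linarith
  have h1 := eval_pos_of_coeff q hall e hlead b hb
  rw [hq] at h1
  simp at h1

/-- the sign pattern with one sign change bounds the number of roots of one sign -/
lemma card_le_one (P : ℝ[X]) (d : ℕ) (hd : P.natDegree ≤ d) (h0 : P.coeff d ≠ 0) (s : ℝ)
    (hs : s * s = 1) (h : ∀ k < d, P.coeff d * P.coeff k * s ^ (d + k) ≤ 0) :
    Multiset.card (P.roots.filter (fun r => 0 < s * r)) ≤ 1 := by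
  by_contra hcon
  push Not at hcon
  set M := P.roots.filter (fun r => 0 < s * r) with hM
  obtain ⟨a, ha⟩ := Multiset.card_pos_iff_exists_mem.mp (show 0 < Multiset.card M by omega)
  obtain ⟨M1, hM1⟩ := Multiset.exists_cons_of_mem ha
  have hc1 : 0 < Multiset.card M1 := by
    rw [hM1, Multiset.card_cons] at hcon; omega
  obtain ⟨b, hb⟩ := Multiset.card_pos_iff_exists_mem.mp hc1
  obtain ⟨M2, hM2⟩ := Multiset.exists_cons_of_mem hb
  have hP0 : P ≠ 0 := by rintro h1; rw [h1] at h0; simp at h0
  have hle : a ::ₘ b ::ₘ M2 ≤ P.roots := by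
    rw [← hM2, ← hM1]; exact Multiset.filter_le _ _
  have hdvd : (X - C a) * (X - C b) ∣ P := by
    have h1 := (Multiset.prod_X_sub_C_dvd_iff_le_roots hP0 (a ::ₘ b ::ₘ M2)).mpr hle
    rw [Multiset.map_cons, Multiset.map_cons, Multiset.prod_cons, Multiset.prod_cons,
      ← mul_assoc] at h1
    exact (dvd_mul_right _ _).trans h1
  have hpa : 0 < s * a := (Multiset.mem_filter.mp ha).2
  have hpb : 0 < s * b := by
    have : b ∈ M := by rw [hM1]; exact Multiset.mem_cons_of_mem hb
    exact (Multiset.mem_filter.mp this).2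
  obtain ⟨g, hg⟩ := hdvd
  have hfac : ∀ t : ℝ, (C s * X - C t : ℝ[X]) = C s * (X - C (s * t)) := by
    intro t
    rw [mul_sub, ← C_mul, ← mul_assoc, hs, one_mul]
  set f : ℝ[X] := C (P.coeff d * s ^ d) * P.comp (C s * X) with hf
  have hfc : ∀ k, f.coeff k = P.coeff d * P.coeff k * s ^ (d + k) := by
    intro k
    rw [hf, coeff_C_mul, comp_C_mul_X_coeff, pow_add]; ring
  apply no_two_pos f d _ _ _ (s * a) (s * b) hpa hpb
  · refine ⟨C (P.coeff d * s ^ d) * (C s * C s * g.comp (C s * X)), ?_⟩
    have hPc : P.comp (C s * X) = (C s * (X - C (s * a))) * (C s * (X - C (s * b))) *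
        g.comp (C s * X) := by
      conv_lhs => rw [hg]
      rw [mul_comp, mul_comp, sub_comp, sub_comp, X_comp, C_comp, C_comp, hfac, hfac]
    rw [hf, hPc]
    ring
  · rw [natDegree_le_iff_coeff_eq_zero]
    intro k hk
    rw [hfc, coeff_eq_zero_of_natDegree_lt (lt_of_le_of_lt hd hk)]
    ring
  · rw [hfc]
    have h1 : s ^ (d + d) = 1 := by rw [← two_mul, pow_mul, pow_two, hs, one_pow]
    rw [h1, mul_one]
    exact mul_self_pos.mpr h0
  · intro k hk
    rw [hfc]
    exact h k hk

/-- constant sign pattern: no roots of one sign -/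
lemma card_eq_zero (P : ℝ[X]) (d : ℕ) (h0 : P.coeff d ≠ 0) (s : ℝ)
    (hs : s * s = 1) (h : ∀ k, 0 ≤ P.coeff d * P.coeff k * s ^ (d + k)) :
    ∀ r ∈ P.roots, s * r ≤ 0 := by
  intro r hr
  by_contra hcon
  push Not at hcon
  set f : ℝ[X] := C (P.coeff d * s ^ d) * P.comp (C s * X) with hf
  have hfc : ∀ k, f.coeff k = P.coeff d * P.coeff k * s ^ (d + k) := by
    intro k
    rw [hf, coeff_C_mul, comp_C_mul_X_coeff, pow_add]; ring
  have h1 : s ^ (d + d) = 1 := by rw [← two_mul, pow_mul, pow_two, hs, one_pow]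
  have h2 := eval_pos_of_coeff f (fun k => by rw [hfc]; exact h k) d (by
    rw [hfc, h1, mul_one]; exact mul_self_pos.mpr h0) (s * r) hcon
  have h3 : P.eval r = 0 := by
    have := (mem_roots'.mp hr).2
    exact this
  rw [hf, eval_mul, eval_comp, eval_mul, eval_C, eval_X, eval_C, ← mul_assoc, hs, one_mul, h3,
    mul_zero] at h2
  exact lt_irrefl _ h2

lemma splits_iter (P : ℝ[X]) (hP : P.Splits) (k : ℕ) : (derivative^[k] P).Splits := by
  induction k with
  | zero => exact hP
  | succ k ih =>
    rw [Function.iterate_succ_apply']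
    exact splits_derivative _ ih

/-- strict Newton-type inequality at a vanishing coefficient -/
lemma crit (P : ℝ[X]) (hP : P.Splits) (k : ℕ) (h : P.coeff k ≠ 0) (h1 : P.coeff (k + 1) = 0)
    (hd : k < P.natDegree) : P.coeff k * P.coeff (k + 2) < 0 := by
  set R := derivative^[k] P with hR
  have hc : ∀ m, R.coeff m = ((m + k).descFactorial k : ℝ) * P.coeff (m + k) := by
    intro m
    rw [hR, coeff_iterate_derivative, nsmul_eq_mul]
  have e0 : R.eval 0 = ((k.descFactorial k : ℕ) : ℝ) * P.coeff k := by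
    rw [← coeff_zero_eq_eval_zero, hc, zero_add]
  have e1 : (derivative R).eval 0 = 0 := by
    rw [← coeff_zero_eq_eval_zero, coeff_derivative, hc, show 0 + 1 + k = k + 1 by ring, h1]
    ring
  have e2 : (derivative (derivative R)).eval 0 =
      2 * (((k + 2).descFactorial k : ℕ) : ℝ) * P.coeff (k + 2) := by
    rw [← coeff_zero_eq_eval_zero, coeff_derivative, coeff_derivative, hc,
      show 0 + 1 + 1 + k = k + 2 by ring]
    push_cast
    ring
  have p0 : (0 : ℝ) < ((k.descFactorial k : ℕ) : ℝ) := by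
    exact_mod_cast Nat.descFactorial_pos.mpr le_rfl
  have p2 : (0 : ℝ) < (((k + 2).descFactorial k : ℕ) : ℝ) := by
    exact_mod_cast Nat.descFactorial_pos.mpr (by omega)
  have hnd : R.natDegree ≠ 0 := by
    have hne : R.coeff (P.natDegree - k) ≠ 0 := by
      rw [hc, show P.natDegree - k + k = P.natDegree by omega]
      apply mul_ne_zero
      · exact_mod_cast (Nat.descFactorial_pos.mpr (by omega)).ne'
      · have hP0 : P ≠ 0 := by rintro rfl; simp at hd
        exact leadingCoeff_ne_zero.mpr hP0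
    have := le_natDegree_of_ne_zero hne
    omega
  have h3 := crit_sign R (splits_iter P hP k) 0 (by rw [e0]; exact mul_ne_zero p0.ne' h) hnd e1
  rw [e0, e2] at h3
  by_contra hcon
  push Not at hcon
  have h4 : 0 ≤ ((k.descFactorial k : ℕ) : ℝ) * (2 * (((k + 2).descFactorial k : ℕ) : ℝ)) *
      (P.coeff k * P.coeff (k + 2)) := mul_nonneg (by positivity) hcon
  nlinarith

/-- the sign pattern -/
lemma pattern (e : ℕ → ℝ) (n : ℕ) (hZ : ∀ k, k < n → e k ≠ 0 → e (k + 1) ≠ 0)
    (hS : ∀ k, k + 2 ≤ n → 0 ≤ e k * e (k + 2)) :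
    ∃ s : ℝ, s * s = 1 ∧ ∀ j, j ≤ n → 0 ≤ e (n - j) * e n * s ^ j := by
  obtain ⟨s, hs, hs1⟩ : ∃ s : ℝ, s * s = 1 ∧ 0 ≤ e (n - 1) * e n * s := by
    rcases le_total 0 (e (n - 1) * e n) with h | h
    · exact ⟨1, by norm_num, by linarith⟩
    · exact ⟨-1, by norm_num, by linarith⟩
  refine ⟨s, hs, ?_⟩
  intro j
  induction j using Nat.strong_induction_on with
  | _ j ih =>
    intro hj
    rcases j with _ | _ | j
    · rw [Nat.sub_zero, pow_zero, mul_one]; exact mul_self_nonneg _
    · rw [pow_one]; exact hs1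
    · have h1 := ih j (by omega) (by omega)
      have h2 := hS (n - (j + 2)) (by omega)
      rw [show n - (j + 2) + 2 = n - j by omega] at h2
      have e3 : s ^ (j + 1 + 1) = s ^ j := by
        rw [pow_succ, pow_succ, mul_assoc, hs, mul_one]
      rw [e3, show j + 1 + 1 = j + 2 from rfl]
      by_cases h0 : e (n - (j + 2)) = 0
      · rw [h0]; simp
      · have h4 := hZ _ (by omega) h0
        have h5 := hZ _ (by omega) h4
        rw [show n - (j + 2) + 1 + 1 = n - j by omega] at h5
        have h6 := mul_nonneg h2 h1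
        have h7 : 0 < e (n - j) ^ 2 := by positivity
        by_contra hcon
        push Not at hcon
        have h8 : e (n - (j + 2)) * e (n - j) * (e (n - j) * e n * s ^ j) =
            e (n - j) ^ 2 * (e (n - (j + 2)) * e n * s ^ j) := by ring
        rw [h8] at h6
        nlinarith

lemma pow_parity (s : ℝ) (hs : s * s = 1) (a b : ℕ) (h : b ≤ a) : s ^ (a + b) = s ^ (a - b) := by
  obtain ⟨c, rfl⟩ := Nat.exists_eq_add_of_le h
  rw [Nat.add_sub_cancel_left, show b + c + b = c + 2 * b by ring, pow_add, pow_mul, pow_two, hs,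
    one_pow, mul_one]

/-- necessity, nondegenerate case -/
theorem nec_main (P : ℝ[X]) (hP : P.Splits) (d : ℕ) (hd2 : 2 ≤ d) (hd : P.natDegree ≤ d)
    (hlead : P.coeff d ≠ 0) (hsub : P.coeff (d - 1) = 0)
    (hS : ∀ k, k + 2 ≤ d - 2 → 0 ≤ P.coeff k * P.coeff (k + 2)) :
    d - 1 ≤ Multiset.card (P.roots.filter (fun x => 0 ≤ x)) ∨
    d - 1 ≤ Multiset.card (P.roots.filter (fun x => x ≤ 0)) := by
  obtain ⟨n, rfl⟩ : ∃ n, d = n + 2 := ⟨d - 2, by omega⟩
  have hnd : P.natDegree = n + 2 := le_antisymm hd (le_natDegree_of_ne_zero hlead)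
  have hcard : Multiset.card P.roots = n + 2 := by rw [← hP.natDegree_eq_card_roots, hnd]
  simp only [Nat.add_sub_cancel] at hS
  rw [show n + 2 - 1 = n + 1 by omega] at hsub
  have hZ : ∀ k, k < n → P.coeff k ≠ 0 → P.coeff (k + 1) ≠ 0 := by
    intro k hk h0 h1
    have h2 := crit P hP k h0 h1 (by omega)
    rcases Nat.lt_or_ge (k + 1) n with h3 | h3
    · exact absurd (hS k (by omega)) (not_le.mpr h2)
    · have : k + 2 = n + 1 := by omega
      rw [this, hsub, mul_zero] at h2
      exact lt_irrefl _ h2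
  obtain ⟨s, hs, hpat⟩ := pattern (fun k => P.coeff k) n hZ hS
  have hnl : P.coeff n ≠ 0 → P.coeff n * P.coeff (n + 2) < 0 :=
    fun h => crit P hP n h hsub (by omega)
  have hall : ∀ k < n + 2, P.coeff (n + 2) * P.coeff k * s ^ (n + 2 + k) ≤ 0 := by
    intro k hk
    rcases Nat.lt_or_ge n k with h1 | h1
    · have : k = n + 1 := by omega
      rw [this, hsub]; simp
    · by_cases h0 : P.coeff k = 0
      · rw [h0]; simp
      · have hn0 : P.coeff n ≠ 0 := by
          have : ∀ m, k ≤ m → m ≤ n → P.coeff m ≠ 0 := by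
            intro m hm
            induction m, hm using Nat.le_induction with
            | base => intro _; exact h0
            | succ m hm ih => intro h2; exact hZ m (by omega) (ih (by omega))
          exact this n h1 le_rfl
        have h2 : 0 ≤ P.coeff (n - (n - k)) * P.coeff n * s ^ (n - k) := hpat (n - k) (by omega)
        rw [show n - (n - k) = k by omega] at h2
        have h3 : s ^ (n + 2 + k) = s ^ (n - k) := by
          rw [pow_parity s hs (n + 2) k (by omega), show n + 2 - k = (n - k) + 2 by omega, pow_add,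
            pow_two, hs, mul_one]
        rw [h3]
        have h4 := hnl hn0
        have h5 : 0 < P.coeff n ^ 2 := by positivity
        by_contra hcon
        push Not at hcon
        have h6 : P.coeff n ^ 2 * (P.coeff (n + 2) * P.coeff k * s ^ (n - k)) =
            (P.coeff n * P.coeff (n + 2)) * (P.coeff k * P.coeff n * s ^ (n - k)) := by ring
        have h7 := mul_pos h5 hcon
        rw [h6] at h7
        nlinarith [mul_nonneg_of_nonpos_of_nonpos h4.le (neg_nonpos.mpr h2)]
  have h1 := card_le_one P (n + 2) hd hlead s hs hall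
  rw [show n + 2 - 1 = n + 1 by omega]
  have hs' : s = 1 ∨ s = -1 := by
    have : (s - 1) * (s + 1) = 0 := by linear_combination hs
    rcases mul_eq_zero.mp this with h | h
    · left; linarith
    · right; linarith
  rcases hs' with rfl | rfl
  · right
    have h2 := congrArg Multiset.card (Multiset.filter_add_not (fun x : ℝ => x ≤ 0) P.roots)
    rw [Multiset.card_add, hcard] at h2
    have h3 : P.roots.filter (fun x : ℝ => ¬ x ≤ 0) = P.roots.filter (fun r => 0 < (1 : ℝ) * r) := by
      apply Multiset.filter_congr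
      intro x _
      rw [one_mul, not_le]
    rw [h3] at h2
    omega
  · left
    have h2 := congrArg Multiset.card (Multiset.filter_add_not (fun x : ℝ => 0 ≤ x) P.roots)
    rw [Multiset.card_add, hcard] at h2
    have h3 : P.roots.filter (fun x : ℝ => ¬ 0 ≤ x) = P.roots.filter (fun r => 0 < (-1 : ℝ) * r) := by
      apply Multiset.filter_congr
      intro x _
      rw [not_le]
      constructor <;> intro h <;> linarith
    rw [h3] at h2
    omega

/-- necessity, degenerate case -/
theorem nec_deg (P : ℝ[X]) (hP : P.Splits)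
    (hS : ∀ k, k + 2 ≤ P.natDegree → 0 ≤ P.coeff k * P.coeff (k + 2)) :
    P.natDegree ≤ Multiset.card (P.roots.filter (fun x => 0 ≤ x)) ∨
    P.natDegree ≤ Multiset.card (P.roots.filter (fun x => x ≤ 0)) := by
  by_cases hP0 : P = 0
  · left; rw [hP0]; simp
  set D := P.natDegree with hD
  have hlead : P.coeff D ≠ 0 := leadingCoeff_ne_zero.mpr hP0
  have hcard : Multiset.card P.roots = D := by rw [← hP.natDegree_eq_card_roots]
  have hZ : ∀ k, k < D → P.coeff k ≠ 0 → P.coeff (k + 1) ≠ 0 := by
    intro k hk h0 h1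
    have h2 := crit P hP k h0 h1 (by omega)
    rcases Nat.lt_or_ge (k + 1) D with h3 | h3
    · exact absurd (hS k (by omega)) (not_le.mpr h2)
    · have : k + 1 = D := by omega
      rw [this] at h1
      exact hlead h1
  obtain ⟨s, hs, hpat⟩ := pattern (fun k => P.coeff k) D hZ hS
  have hall : ∀ k, 0 ≤ P.coeff D * P.coeff k * s ^ (D + k) := by
    intro k
    rcases Nat.lt_or_ge D k with h1 | h1
    · rw [coeff_eq_zero_of_natDegree_lt (show P.natDegree < k by omega)]; simp
    · have h2 : 0 ≤ P.coeff (D - (D - k)) * P.coeff D * s ^ (D - k) := hpat (D - k) (by omega)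
      rw [show D - (D - k) = k by omega] at h2
      rw [pow_parity s hs D k h1]
      linarith
  have h1 := card_eq_zero P D hlead s hs hall
  have hs' : s = 1 ∨ s = -1 := by
    have : (s - 1) * (s + 1) = 0 := by linear_combination hs
    rcases mul_eq_zero.mp this with h | h
    · left; linarith
    · right; linarith
  rcases hs' with rfl | rfl
  · right
    rw [Multiset.filter_eq_self.mpr (fun x hx => by have := h1 x hx; linarith), hcard]
  · left
    rw [Multiset.filter_eq_self.mpr (fun x hx => by have := h1 x hx; linarith), hcard]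

end Pool.Agent.Q163.TZ
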